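import Mathlib
import Pool.Agent.H96.LT.Main

/-!
# MP_23c5a6_pr, Q1: the limits `μ_d^0` and `μ_d^{0,1}` are extremal for all `d = 2, ..., 7`

Vertices of the `d`-ary tree are words over `Fin d`; the root is the empty word and the children
of the vertex `v` are the words `v ++ [c]`, `c : Fin d`.

Idea of the proof.  The limit is a tree-indexed Markov chain with transition probabilities
`P(i,j) = a(j) / (a(i-1)+a(i)+a(i+1))`, `|i-j| ≤ 1`, where `a(i) = ((a(i-1)+a(i)+a(i+1)) /
(a(-1)+a(0)+a(1)))^d`.  Let `Λ_k(i)` be the law of the values on the `k`-th level below a vertex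
with value `i`.  We show that `Λ_k(i)` and `Λ_k(i+1)` merge as `k → ∞`, by following the
Vincze-Le Cam divergences `Σ (p-q)²/(αp+(1-α)q)` of neighbouring laws (`α = 1/2`, and `α = 2/3`
for the central pairs when `S = {0}` and `d ≥ 3`): these are almost subadditive over the children
and satisfy, with the numerical values of `a`, a tridiagonal system of inequalities with spectral
radius less than one.
-/

set_option autoImplicit false

open MeasureTheory Filter Topology

namespace Pool.Agent.Results.MP_23c5a6_pr.ExtremalAllD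

/-- The vertices of the `d`-ary tree: words; the root is `[]`, the children of `v` are the
`v ++ [c]`. -/
abbrev V (d : ℕ) := List (Fin d)

/-- `f` is 1-Lipschitz on the finite tree of the vertices of depth at most `n`. -/
def IsLipUpTo (d n : ℕ) (f : V d → ℤ) : Prop :=
  ∀ (v : V d) (c : Fin d), v.length < n → |f (v ++ [c]) - f v| ≤ 1

/-- `f` is 1-Lipschitz on the whole tree. -/
def IsLip (d : ℕ) (f : V d → ℤ) : Prop :=
  ∀ (v : V d) (c : Fin d), |f (v ++ [c]) - f v| ≤ 1

/-- The Lipschitz functions on the finite tree of depth `n` with all leaf values in `S`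
(a function on the finite tree is extended by `0` to the other vertices). -/
def Conf (d n : ℕ) (S : Set ℤ) : Set (V d → ℤ) :=
  {f | IsLipUpTo d n f ∧ (∀ v : V d, v.length = n → f v ∈ S) ∧ ∀ v : V d, n < v.length → f v = 0}

/-- `μ` is the local limit of the uniform measures `μ_{n,d}^S`: for every finite set `U` of
vertices and every pattern `g` the proportion of the elements of `Conf d n S` that agree
with `g` on `U` converges to the `μ`-probability of the same event. -/
def IsLocalLimit (d : ℕ) (S : Set ℤ) (μ : Measure (V d → ℤ)) : Prop :=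
  ∀ (U : Finset (V d)) (g : V d → ℤ),
    Tendsto (fun n : ℕ => (({f ∈ Conf d n S | ∀ v ∈ U, f v = g v}.ncard : ℝ)
        / ((Conf d n S).ncard : ℝ))) atTop
      (𝓝 (μ.real {f | ∀ v ∈ U, f v = g v}))

/-- The Lipschitz functions on the tree that agree with `f` outside `U`. -/
def Ext (d : ℕ) (U : Finset (V d)) (f : V d → ℤ) : Set (V d → ℤ) :=
  {g | IsLip d g ∧ ∀ v, v ∉ U → g v = f v}

/-- Gibbs measures for the uniform Lipschitz specification (DLR equations): `μ` is a
probability measure on Lipschitz functions, and for every finite vertex set `U`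
resampling `f` on `U` uniformly among the values which keep it Lipschitz preserves `μ`. -/
def IsGibbs (d : ℕ) (μ : Measure (V d → ℤ)) : Prop :=
  IsProbabilityMeasure μ ∧ (∀ᵐ f ∂μ, IsLip d f) ∧
    ∀ (U : Finset (V d)) (E : Set (V d → ℤ)), MeasurableSet E →
      μ E = ∫⁻ f, ((Ext d U f ∩ E).ncard : ENNReal) / ((Ext d U f).ncard : ENNReal) ∂μ

/-- Extremal Gibbs measures: not a non-trivial mixture of two distinct Gibbs measures. -/
def IsExtremalGibbs (d : ℕ) (μ : Measure (V d → ℤ)) : Prop :=
  IsGibbs d μ ∧ ∀ ν₁ ν₂ : Measure (V d → ℤ), IsGibbs d ν₁ → IsGibbs d ν₂ →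
    ∀ t : ENNReal, 0 < t → t < 1 → μ = t • ν₁ + (1 - t) • ν₂ → ν₁ = ν₂

/-- For `2 ≤ d ≤ 7` the local limits `μ_d^0` and `μ_d^{0,1}` are extremal Gibbs measures. -/
theorem result (d : ℕ) (h2 : 2 ≤ d) (h7 : d ≤ 7) (μ : Measure (V d → ℤ))
    [IsProbabilityMeasure μ] :
    (IsLocalLimit d {0} μ → IsExtremalGibbs d μ) ∧
      (IsLocalLimit d {0, 1} μ → IsExtremalGibbs d μ) :=
  ⟨fun h => Pool.H96.LT.extremal0 h2 h7 μ h, fun h => Pool.H96.LT.extremal1 h2 h7 μ h⟩

end Pool.Agent.Results.MP_23c5a6_pr.ExtremalAllD
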